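import Mathlib
import Pool.Agent.Work.MP_a5099b_nt.H.HDefs
import Pool.Agent.Work.MP_a5099b_nt.H.Gen
import Pool.Agent.Work.MP_a5099b_nt.H.Sand
import Pool.Agent.Work.MP_a5099b_nt.I1.CInt
import Pool.Agent.Work.MP_a5099b_nt.I1.CConj

/-!
Block K1 (averaged version of block H1, `q ≡ 1 mod 4`): definitions and basic facts (proved, fixed).

`K = ℚ(√-q)`, `δ = √-q`, `𝓞 K = ℤ[δ]`, `φ : 𝓞 K →+* ℂ` with `φ δ = sq q`.
For a lattice `L` with multiplication by `sq q` and an ideal `I`, `LI φ L I` is the lattice `(L : I)`.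
-/

set_option autoImplicit false
set_option linter.unusedSectionVars false

namespace Pool.Agent.SS.K1B

open NumberField
open Pool.Agent.Work.CM
open Pool.Agent.Work.MP_a5099b_nt
open Pool.Agent.Work.MP_a5099b_nt.PrF (Sm)
open Pool.Agent.Work.MP_a5099b_nt.PrG (Quad Rel Cls)
open Pool.Agent.SS.HB
open scoped Pointwise

variable {K : Type} [Field K] [NumberField K] {q : ℕ} {δ : 𝓞 K}

theorem exists_emb (h : Quad K q δ) : ∃ φ : 𝓞 K →+* ℂ, φ δ = sq q := by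
  obtain ⟨ψ⟩ : Nonempty (K →+* ℂ) := inferInstance
  have h1 : ψ (algebraMap (𝓞 K) K δ) * ψ (algebraMap (𝓞 K) K δ) = sq q * sq q := by
    rw [← map_mul, ← map_mul, h.sq, sq_mul_self]
    simp
  rcases mul_self_eq_mul_self_iff.mp h1 with h2 | h2
  · exact ⟨ψ.comp (algebraMap (𝓞 K) K), h2⟩
  · refine ⟨((starRingEnd ℂ).comp ψ).comp (algebraMap (𝓞 K) K), ?_⟩
    show starRingEnd ℂ (ψ (algebraMap (𝓞 K) K δ)) = sq q
    rw [h2, map_neg, conj_sq, neg_neg]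

theorem sq_ne (h : Quad K q δ) : sq q ≠ 0 := sq_ne_zero h.prime.pos

theorem phi_od {φ : 𝓞 K →+* ℂ} (hφ : φ δ = sq q) (a b : ℤ) :
    φ ((a : 𝓞 K) + (b : 𝓞 K) * δ) = (a : ℂ) + (b : ℂ) * sq q := by
  rw [map_add, map_mul, hφ, map_intCast, map_intCast]

theorem phi_ne_zero (h : Quad K q δ) {φ : 𝓞 K →+* ℂ} (hφ : φ δ = sq q) {x : 𝓞 K} (hx : x ≠ 0) :
    φ x ≠ 0 := by
  intro h0
  obtain ⟨u, v, huv⟩ := PrG.coords h x
  have h1 : (u : ℂ) + (v : ℂ) * sq q = 0 := by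
    rw [← phi_od hφ, ← huv, h0]
  have hs : Real.sqrt q ≠ 0 := by
    rw [Real.sqrt_ne_zero']
    exact_mod_cast h.prime.pos
  have hre := congrArg Complex.re h1
  have him := congrArg Complex.im h1
  simp only [Complex.add_re, Complex.mul_re, Complex.intCast_re, Complex.intCast_im, sq_re, sq_im,
    Complex.zero_re, mul_zero, zero_mul, sub_zero, add_zero] at hre
  simp only [Complex.add_im, Complex.mul_im, Complex.intCast_re, Complex.intCast_im, sq_re, sq_im,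
    Complex.zero_im, zero_mul, add_zero, zero_add] at him
  have hv : v = 0 := by
    rcases mul_eq_zero.1 him with h2 | h2
    · exact_mod_cast h2
    · exact absurd h2 hs
  have hu : u = 0 := by exact_mod_cast hre
  rw [hu, hv] at huv
  apply hx
  rw [huv]
  simp

theorem phi_injective (h : Quad K q δ) {φ : 𝓞 K →+* ℂ} (hφ : φ δ = sq q) :
    Function.Injective φ := by
  rw [injective_iff_map_eq_zero]
  intro x hx
  by_contra h0
  exact phi_ne_zero h hφ h0 hx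

/-- the elements of `𝓞 K` are multipliers -/
theorem phi_mul (h : Quad K q δ) {φ : 𝓞 K →+* ℂ} (hφ : φ δ = sq q) {L : Submodule ℤ ℂ}
    (hs : HasSq q L) (x : 𝓞 K) : ∀ z ∈ L, φ x * z ∈ L := by
  obtain ⟨a, b, rfl⟩ := PrG.coords h x
  intro z hz
  rw [phi_od hφ]
  exact (IsMul.add (IsMul.int L a) (IsMul.mul (IsMul.int L b) hs)) z hz

/-- every multiplier is an element of `𝓞 K` -/
theorem exists_of_mul (h : Quad K q δ) {φ : 𝓞 K →+* ℂ} (hφ : φ δ = sq q) {L : Submodule ℤ ℂ}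
    (hL : IsLat L) (hs : HasSq q L) {μ : ℂ} (hμ : IsMul L μ) : ∃ x : 𝓞 K, φ x = μ := by
  obtain ⟨x, y, n, h1, h2, -⟩ := two_mul_eq h.prime hL hs hμ
  have hq1 : ∃ m : ℕ, q = 4 * m + 1 := ⟨q / 4, by have := h.mod4; omega⟩
  obtain ⟨m, hm⟩ := hq1
  have hqz : (q : ℤ) = 4 * m + 1 := by exact_mod_cast hm
  have hpar : x % 2 = 0 ∧ y % 2 = 0 := by
    have e : x ^ 2 + y ^ 2 = 4 * (n - m * y ^ 2) := by
      rw [hqz] at h2
      linear_combination h2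
    rcases Int.even_or_odd' x with ⟨a, ha | ha⟩ <;> rcases Int.even_or_odd' y with ⟨b, hb | hb⟩
    · omega
    · exfalso
      have : x ^ 2 + y ^ 2 = 4 * (a ^ 2 + b ^ 2 + b) + 1 := by rw [ha, hb]; ring
      omega
    · exfalso
      have : x ^ 2 + y ^ 2 = 4 * (a ^ 2 + b ^ 2 + a) + 1 := by rw [ha, hb]; ring
      omega
    · exfalso
      have : x ^ 2 + y ^ 2 = 4 * (a ^ 2 + a + b ^ 2 + b) + 2 := by rw [ha, hb]; ring
      omega
  obtain ⟨a, ha⟩ : ∃ a : ℤ, x = 2 * a := ⟨x / 2, by omega⟩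
  obtain ⟨b, hb⟩ : ∃ b : ℤ, y = 2 * b := ⟨y / 2, by omega⟩
  refine ⟨(a : 𝓞 K) + (b : 𝓞 K) * δ, ?_⟩
  rw [phi_od hφ]
  rw [ha, hb] at h1
  push_cast at h1
  linear_combination -(1 / 2 : ℂ) * h1

/-- the lattice `(L : I)` -/
def LI (φ : 𝓞 K →+* ℂ) (L : Submodule ℤ ℂ) (I : Ideal (𝓞 K)) : Submodule ℤ ℂ where
  carrier := {z | ∀ x ∈ I, φ x * z ∈ L}
  add_mem' := fun ha hb x hx => by
    rw [mul_add]
    exact L.add_mem (ha x hx) (hb x hx)
  zero_mem' := fun x _ => by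
    rw [mul_zero]
    exact L.zero_mem
  smul_mem' := fun n z hz x hx => by
    rw [mul_smul_comm]
    exact L.smul_mem n (hz x hx)

theorem mem_LI {φ : 𝓞 K →+* ℂ} {L : Submodule ℤ ℂ} {I : Ideal (𝓞 K)} {z : ℂ} :
    z ∈ LI φ L I ↔ ∀ x ∈ I, φ x * z ∈ L := Iff.rfl

theorem le_LI (h : Quad K q δ) {φ : 𝓞 K →+* ℂ} (hφ : φ δ = sq q) {L : Submodule ℤ ℂ}
    (hs : HasSq q L) (I : Ideal (𝓞 K)) : L ≤ LI φ L I := fun z hz x _ => phi_mul h hφ hs x z hz

theorem LI_hasSq {φ : 𝓞 K →+* ℂ} (hφ : φ δ = sq q) (L : Submodule ℤ ℂ)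
    (I : Ideal (𝓞 K)) : HasSq q (LI φ L I) := by
  intro z hz x hx
  have h1 := hz (x * δ) (I.mul_mem_right δ hx)
  rw [map_mul, hφ] at h1
  rwa [mul_assoc] at h1

theorem LI_smul {φ : 𝓞 K →+* ℂ} {L : Submodule ℤ ℂ} {c : ℂ} (hc : c ≠ 0) (I : Ideal (𝓞 K)) :
    LI φ (c • L) I = c • LI φ L I := by
  ext z
  rw [mem_smul' hc, mem_LI, mem_LI]
  refine forall_congr' fun x => forall_congr' fun _ => ?_
  rw [mem_smul' hc]
  have e : c⁻¹ * (φ x * z) = φ x * (c⁻¹ * z) := by ring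
  rw [e]

theorem LI_span (h : Quad K q δ) {φ : 𝓞 K →+* ℂ} (hφ : φ δ = sq q) {L : Submodule ℤ ℂ}
    (hs : HasSq q L) {γ : 𝓞 K} (hγ : γ ≠ 0) :
    LI φ L (Ideal.span {γ}) = (φ γ)⁻¹ • L := by
  have hγ0 : φ γ ≠ 0 := phi_ne_zero h hφ hγ
  ext z
  rw [mem_smul' (inv_ne_zero hγ0), inv_inv, mem_LI]
  constructor
  · intro h1
    exact h1 γ (Ideal.mem_span_singleton_self γ)
  · intro h1 x hx
    obtain ⟨w, rfl⟩ := Ideal.mem_span_singleton'.1 hx
    have h2 := phi_mul h hφ hs w _ h1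
    rw [map_mul, mul_assoc]
    exact h2

theorem LI_top (h : Quad K q δ) {φ : 𝓞 K →+* ℂ} (hφ : φ δ = sq q) {L : Submodule ℤ ℂ}
    (hs : HasSq q L) : LI φ L ⊤ = L := by
  apply le_antisymm
  · intro z hz
    have h1 := hz 1 trivial
    rwa [map_one, one_mul] at h1
  · exact le_LI h hφ hs ⊤

theorem LI_mul {φ : 𝓞 K →+* ℂ} {L : Submodule ℤ ℂ} (I J : Ideal (𝓞 K)) :
    LI φ (LI φ L I) J = LI φ L (I * J) := by
  apply le_antisymm
  · intro z hz v hv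
    refine Submodule.mul_induction_on hv ?_ ?_
    · intro x hx y hy
      have h1 := hz y hy x hx
      rwa [← mul_assoc, ← map_mul] at h1
    · intro x y hx hy
      rw [map_add, add_mul]
      exact L.add_mem hx hy
  · intro z hz y hy x hx
    rw [← mul_assoc, ← map_mul]
    exact hz _ (Ideal.mul_mem_mul hx hy)

theorem LI_lat (h : Quad K q δ) {φ : 𝓞 K →+* ℂ} (hφ : φ δ = sq q) {L : Submodule ℤ ℂ} (hL : IsLat L)
    (hs : HasSq q L) {I : Ideal (𝓞 K)} (hI : I ≠ ⊥) : IsLat (LI φ L I) := by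
  have hn0 : Ideal.absNorm I ≠ 0 := fun h0 => hI (Ideal.absNorm_eq_zero_iff.1 h0)
  have hn : ((Ideal.absNorm I : ℕ) : ℂ) ≠ 0 := Nat.cast_ne_zero.2 hn0
  refine isLat_between hL (hL.smul (inv_ne_zero hn)) (le_LI h hφ hs I) fun z hz => ?_
  rw [mem_smul' (inv_ne_zero hn), inv_inv]
  have h1 := hz _ (Ideal.absNorm_mem I)
  rwa [map_natCast] at h1

end Pool.Agent.SS.K1B
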