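import Mathlib
import Pool.Agent.Work.MP_a5099b_nt.K1.KDefs
import Pool.Agent.Work.MP_a5099b_nt.A.Lat
import Pool.Agent.Work.MP_a5099b_nt.I1.CCls
import Pool.Agent.Work.MP_a5099b_nt.I1.CConj

/-!
# Module K1/TFun: the function `T (cl I) = j(L_I)`

`LI_mem`: an ideal is determined by `L_I`. `exists_T`: `T (cl I) = j(L_I)`; if `T g = T g'` and the norms of `g`, `g'`
are equal then `g = g'` (an ideal `I` with `j(L_I) = j(L)` is principal); if `T g = T 1` then `nm g ≡ 1 mod 4`.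
-/

set_option autoImplicit false
set_option linter.unusedSectionVars false

namespace Pool.Agent.SS.K1B

open NumberField
open Pool.Agent.Work.CM
open Pool.Agent.Work.MP_a5099b_nt
open Pool.Agent.Work.MP_a5099b_nt.PrF (Sm)
open Pool.Agent.Work.MP_a5099b_nt.PrG (Quad Rel Cls)
open Pool.Agent.SS.HB
open scoped Pointwise

variable {K : Type} [Field K] [NumberField K] {q : ℕ} {δ : 𝓞 K}

/-- `I` is determined by `L_I`. -/
theorem LI_mem (h : Quad K q δ) {φ : 𝓞 K →+* ℂ} (hφ : φ δ = sq q) {L : Submodule ℤ ℂ} (hL : IsLat L)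
    (hs : HasSq q L) {I : Ideal (𝓞 K)} (hI : I ≠ ⊥) (x : 𝓞 K) :
    x ∈ I ↔ ∀ z ∈ LI φ L I, φ x * z ∈ L := by
  refine ⟨fun hx z hz => hz x hx, fun hx => ?_⟩
  have hn0 : Ideal.absNorm I ≠ 0 := fun h0 => hI (Ideal.absNorm_eq_zero_iff.1 h0)
  have hn : ((Ideal.absNorm I : ℕ) : ℂ) ≠ 0 := Nat.cast_ne_zero.2 hn0
  have hmul := PrG.map_conj_mul h I hI
  set I' := I.map (PrG.conj h : 𝓞 K →+* 𝓞 K) with hI'
  set n := Ideal.absNorm I with hndef
  have hI0 : I' ≠ ⊥ := by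
    intro h0
    rw [h0, Ideal.mul_bot] at hmul
    have h1 := Ideal.mem_span_singleton_self ((n : ℕ) : 𝓞 K)
    rw [← hmul] at h1
    have h2 : ((n : ℕ) : 𝓞 K) = 0 := by simpa using h1
    exact hn0 (by exact_mod_cast h2)
  -- `x I' ≤ (n)`
  have key : Ideal.span {x} * I' ≤ I * I' := by
    rw [Ideal.span_singleton_mul_le_iff]
    intro y hy
    rw [hmul, Ideal.mem_span_singleton']
    have hmu : IsMul L (φ x * φ y / n) := by
      intro z hz
      have h1 : φ y * (n : ℂ)⁻¹ * z ∈ LI φ L I := by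
        intro w hw
        have h2 : w * y ∈ I * I' := Ideal.mul_mem_mul hw hy
        rw [hmul, Ideal.mem_span_singleton'] at h2
        obtain ⟨a, ha⟩ := h2
        have h3 : φ w * (φ y * (n : ℂ)⁻¹ * z) = φ a * z := by
          have h4 : φ w * φ y = φ a * n := by
            rw [← map_mul, ← ha, map_mul, map_natCast]
          calc φ w * (φ y * (n : ℂ)⁻¹ * z) = (φ w * φ y) * (n : ℂ)⁻¹ * z := by ring
            _ = φ a * z := by
              rw [h4]
              field_simp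
        rw [h3]
        exact phi_mul h hφ hs a z hz
      have h2 := hx _ h1
      have h3 : φ x * φ y / n * z = φ x * (φ y * (n : ℂ)⁻¹ * z) := by
        field_simp
      rw [h3]
      exact h2
    obtain ⟨a, ha⟩ := exists_of_mul h hφ hL hs hmu
    refine ⟨a, phi_injective h hφ ?_⟩
    rw [map_mul, map_mul, map_natCast, ha]
    field_simp
  rw [← Ideal.dvd_iff_le] at key
  have h1 := (mul_dvd_mul_iff_right (show I' ≠ 0 from hI0)).1 key
  rw [Ideal.dvd_iff_le] at h1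
  exact h1 (Ideal.mem_span_singleton_self x)

/-- If `j(L_I) = j(L)` then `I` is principal. -/
theorem prin_of_jL (h : Quad K q δ) {φ : 𝓞 K →+* ℂ} (hφ : φ δ = sq q) {L : Submodule ℤ ℂ}
    (hL : IsLat L) (hs : HasSq q L) {I : Ideal (𝓞 K)} (hI : I ≠ ⊥) (hj : jL (LI φ L I) = jL L) :
    ∃ γ : 𝓞 K, γ ≠ 0 ∧ I = Ideal.span {γ} := by
  obtain ⟨c, hc, he⟩ := exists_smul_of_jL hL (LI_lat h hφ hL hs hI) hj.symm
  have hmu : IsMul L c⁻¹ := by
    intro z hz
    have h1 := le_LI h hφ hs I hz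
    rw [he, mem_smul' hc] at h1
    exact h1
  obtain ⟨γ, hγ⟩ := exists_of_mul h hφ hL hs hmu
  have hγ0 : γ ≠ 0 := by
    rintro rfl
    rw [map_zero] at hγ
    exact inv_ne_zero hc hγ.symm
  refine ⟨γ, hγ0, ?_⟩
  have hs0 : Ideal.span {γ} ≠ ⊥ := by
    rwa [Ne, Ideal.span_singleton_eq_bot]
  have e : LI φ L (Ideal.span {γ}) = LI φ L I := by
    rw [LI_span h hφ hs hγ0, hγ, inv_inv, he]
  ext x
  rw [LI_mem h hφ hL hs hI, LI_mem h hφ hL hs hs0, e]

theorem exists_T (h : Quad K q δ) {N : ℕ} (hN : 4 ∣ N) {G : Type} [CommGroup G]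
    {cl : Ideal (𝓞 K) → G} (hc : Cls N G cl) {φ : 𝓞 K →+* ℂ} (hφ : φ δ = sq q) {L : Submodule ℤ ℂ}
    (hL : IsLat L) (hs : HasSq q L) :
    ∃ T : G → ℂ, (∀ I : Ideal (𝓞 K), Sm N I → T (cl I) = jL (LI φ L I)) ∧
      (∀ I J : Ideal (𝓞 K), Sm N I → Sm N J → Ideal.absNorm I ≡ Ideal.absNorm J [MOD N] →
        T (cl I) = T (cl J) → cl I = cl J) ∧
      (∀ I : Ideal (𝓞 K), Sm N I → T (cl I) = jL L → Ideal.absNorm I ≡ 1 [MOD 4]) := by
  classical
  have hrel : ∀ I J : Ideal (𝓞 K), Sm N I → Sm N J → Rel N I J →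
      jL (LI φ L I) = jL (LI φ L J) := by
    rintro I J hI hJ ⟨α, β, hα, hβ, he⟩
    have hNne : ¬ IsCoprime (0 : ℤ) (N : ℤ) := by
      intro h0
      rw [isCoprime_zero_left, Int.isUnit_iff] at h0
      obtain ⟨k, hk⟩ := hN
      rcases h0 with h0 | h0 <;> omega
    have hα0 : α ≠ 0 := by
      rintro rfl
      rw [Algebra.norm_zero] at hα
      exact hNne hα
    have hβ0 : β ≠ 0 := by
      rintro rfl
      rw [Algebra.norm_zero] at hβ
      apply hNne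
      obtain ⟨k, hk⟩ := hβ.symm.dvd
      have e1 : Algebra.norm ℤ α = 0 + (N : ℤ) * k := by linarith
      rw [e1] at hα
      exact hα.of_add_mul_left_left
    have h1 := congrArg (LI φ L) he
    rw [← LI_mul, ← LI_mul, LI_span h hφ hs hα0, LI_span h hφ hs hβ0,
      LI_smul (inv_ne_zero (phi_ne_zero h hφ hα0)), LI_smul (inv_ne_zero (phi_ne_zero h hφ hβ0))] at h1
    have h2 := congrArg jL h1
    rwa [jL_smul (LI_lat h hφ hL hs hI.ne) (inv_ne_zero (phi_ne_zero h hφ hα0)),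
      jL_smul (LI_lat h hφ hL hs hJ.ne) (inv_ne_zero (phi_ne_zero h hφ hβ0))] at h2
  have hT : ∀ I : Ideal (𝓞 K), Sm N I → jL (LI φ L (hc.surj (cl I)).choose) = jL (LI φ L I) := by
    intro I hI
    obtain ⟨h1, h2⟩ := (hc.surj (cl I)).choose_spec
    exact hrel _ _ h1 hI ((hc.eq_iff _ _ h1 hI).1 h2)
  refine ⟨fun g => jL (LI φ L (hc.surj g).choose), hT, ?_, ?_⟩
  · intro I J hI hJ hn he
    have he' : jL (LI φ L I) = jL (LI φ L J) := by
      rw [← hT I hI, ← hT J hJ]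
      exact he
    -- `J' = conj J`: `L_(I J') = c L_(J J')`, `J J'` is generated by a natural number
    have hJc : Sm N (J.map (PrG.conj h : 𝓞 K →+* 𝓞 K)) := by
      rw [PrF.Sm_iff, PrG.absNorm_conj]
      exact PrF.Sm_iff.1 hJ
    set J' := J.map (PrG.conj h : 𝓞 K →+* 𝓞 K) with hJ'
    obtain ⟨m, hm, hm'⟩ := exists_smul_of_jL (LI_lat h hφ hL hs hJ.ne) (LI_lat h hφ hL hs hI.ne)
      he'.symm
    have hn0 : Ideal.absNorm J ≠ 0 := fun h0 => hJ.ne (Ideal.absNorm_eq_zero_iff.1 h0)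
    have hnJ : ((Ideal.absNorm J : ℕ) : 𝓞 K) ≠ 0 := Nat.cast_ne_zero.2 hn0
    have hnc := phi_ne_zero h hφ hnJ
    have e1 : jL (LI φ L (I * J')) = jL L := by
      rw [← LI_mul, hm', LI_smul hm, LI_mul, PrG.map_conj_mul h J hJ.ne, LI_span h hφ hs hnJ,
        jL_smul (hL.smul (inv_ne_zero hnc)) hm, jL_smul hL (inv_ne_zero hnc)]
    have hIJ : Sm N (I * J') := PrF.Sm_mul.2 ⟨hI, hJc⟩
    obtain ⟨γ, hγ0, hγ⟩ := prin_of_jL h hφ hL hs hIJ.ne e1
    have hγn : Algebra.norm ℤ γ = ((Ideal.absNorm I * Ideal.absNorm J : ℕ) : ℤ) := by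
      rw [← PrG.norm_gen h γ, ← hγ, map_mul, PrG.absNorm_conj]
    have hJn : Algebra.norm ℤ ((Ideal.absNorm J : ℕ) : 𝓞 K) =
        ((Ideal.absNorm J * Ideal.absNorm J : ℕ) : ℤ) := by
      rw [← PrG.norm_gen h, ← PrG.map_conj_mul h J hJ.ne, map_mul, PrG.absNorm_conj]
    have hcopJ : IsCoprime ((Ideal.absNorm J : ℕ) : ℤ) (N : ℤ) := by
      rw [Nat.isCoprime_iff_coprime]
      exact hJ.cop
    refine (hc.eq_iff I J hI hJ).2 ⟨((Ideal.absNorm J : ℕ) : 𝓞 K), γ, ?_, ?_, ?_⟩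
    · rw [hJn]
      push_cast
      exact hcopJ.mul_left hcopJ
    · rw [hJn, hγn]
      exact (Int.natCast_modEq_iff.2 (hn.mul_right _)).symm
    · rw [← PrG.map_conj_mul h J hJ.ne, ← hγ]
      ring
  · intro I hI he
    have he' : jL (LI φ L I) = jL L := by
      rw [← hT I hI]
      exact he
    obtain ⟨γ, hγ0, hγ⟩ := prin_of_jL h hφ hL hs hI.ne he'
    have hγn : Algebra.norm ℤ γ = ((Ideal.absNorm I : ℕ) : ℤ) := by
      rw [← PrG.norm_gen h γ, ← hγ]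
    have hodd : Odd (Algebra.norm ℤ γ) := by
      rw [hγn, Int.odd_coe_nat, ← Nat.coprime_two_right]
      exact Nat.Coprime.coprime_dvd_right ((by norm_num : 2 ∣ 4).trans hN) hI.cop
    have h1 := PrG.norm_mod4 h γ hodd
    rw [hγn] at h1
    exact Int.natCast_modEq_iff.1 h1

end Pool.Agent.SS.K1B
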