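import Mathlib
import Pool.Agent.Work.MP_a5099b_nt.K1.KDefs

/-!
# Module K1/Eig (size S-M): the ideal `P ∩ ℤ[δ] = (l, δ - e)`

`P` is a prime ideal (`Ideal.isPrime_of_irreducible_absNorm`), `l ∈ P` (`Ideal.absNorm_mem`), the field (finite domain) `𝓞 K ⧸ P` has `absNorm P = l` elements (`Ideal.absNorm_apply`, `Submodule.cardQuot_apply`), characteristic `l`.
* The map `ℤ → 𝓞 K ⧸ P` is onto (`ZMod l → 𝓞 K ⧸ P` is injective between sets with `l` elements), so there is `e : ℤ` with `δ - e ∈ P`. `(a : 𝓞 K) ∈ P ↔ l ∣ a`: kernel (if `l ∤ a`, Bezout gives `1 ∈ P`).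
* `e^2 + q = (e - δ)(e + δ) ∈ P` (`h.sq`), so `l ∣ e^2 + q`. If `l ∣ e` then `l ∣ q`, `l = q`, excluded.
* `mem_LI_prime`: (→) `x = l` and `x = δ - e` (`Od.nat`, `⟨-e, 1, _⟩`). (←) `x = a + b δ ∈ P`: `x = b (δ - e) + (a + b e)` with `a + b e ∈ P`, so `a + b e = l k`; `φ x * z = b ((sq q - e) z) + k (l z) ∈ L`.
-/

set_option autoImplicit false
set_option linter.unusedSectionVars false

namespace Pool.Agent.SS.K1B

open NumberField
open Pool.Agent.Work.CM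
open Pool.Agent.Work.MP_a5099b_nt
open Pool.Agent.Work.MP_a5099b_nt.PrF (Sm)
open Pool.Agent.Work.MP_a5099b_nt.PrG (Quad Rel Cls)
open Pool.Agent.SS.HB
open scoped Pointwise

variable {K : Type} [Field K] [NumberField K] {q : ℕ} {δ : 𝓞 K}

theorem exists_e (h : Quad K q δ) {l : ℕ} (hl : l.Prime) (hlq : l ≠ q) {P : Ideal (𝓞 K)}
    (hP : Ideal.absNorm P = l) :
    ∃ e : ℤ, δ - (e : 𝓞 K) ∈ P ∧ ¬ (l : ℤ) ∣ e ∧ (l : ℤ) ∣ e ^ 2 + q ∧
      ∀ a : ℤ, (a : 𝓞 K) ∈ P ↔ (l : ℤ) ∣ a := by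
  have hlP : (l : 𝓞 K) ∈ P := by
    have h1 := Ideal.absNorm_mem P
    rwa [hP] at h1
  have hone : (1 : 𝓞 K) ∉ P := by
    intro h1
    have h2 : P = ⊤ := (Ideal.eq_top_iff_one P).2 h1
    rw [h2, Ideal.absNorm_top] at hP
    exact hl.one_lt.ne hP
  have hint : ∀ a : ℤ, (a : 𝓞 K) ∈ P ↔ (l : ℤ) ∣ a := by
    intro a
    constructor
    · intro ha
      by_contra hc
      have hco : IsCoprime (l : ℤ) a :=
        (Prime.coprime_iff_not_dvd (Nat.prime_iff_prime_int.1 hl)).2 hc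
      obtain ⟨u, v, huv⟩ := hco
      apply hone
      have h1 : (1 : 𝓞 K) = (u : 𝓞 K) * (l : 𝓞 K) + (v : 𝓞 K) * (a : 𝓞 K) := by
        have h2 := congrArg (fun t : ℤ => (t : 𝓞 K)) huv
        simp only [Int.cast_add, Int.cast_mul, Int.cast_natCast, Int.cast_one] at h2
        exact h2.symm
      rw [h1]
      exact P.add_mem (P.mul_mem_left _ hlP) (P.mul_mem_left _ ha)
    · rintro ⟨k, rfl⟩
      rw [Int.cast_mul, Int.cast_natCast]
      exact P.mul_mem_right _ hlP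
  have hcard : Nat.card (𝓞 K ⧸ P) = l := by
    rw [← hP, Ideal.absNorm_apply, Submodule.cardQuot_apply]
  have : Fact l.Prime := ⟨hl⟩
  have hg : (Ideal.Quotient.mk P 1 : 𝓞 K ⧸ P) ≠ 0 := by
    intro h0
    exact hone (Ideal.Quotient.eq_zero_iff_mem.1 h0)
  have htop := zmultiples_eq_top_of_prime_card hcard hg
  have hmem : (Ideal.Quotient.mk P δ : 𝓞 K ⧸ P) ∈
      AddSubgroup.zmultiples (Ideal.Quotient.mk P 1 : 𝓞 K ⧸ P) := by
    rw [htop]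
    exact AddSubgroup.mem_top _
  obtain ⟨e, he⟩ := AddSubgroup.mem_zmultiples_iff.1 hmem
  have he1 : δ - (e : 𝓞 K) ∈ P := by
    rw [← Ideal.Quotient.eq_zero_iff_mem, map_sub, ← he]
    simp
  have hsq : (l : ℤ) ∣ e ^ 2 + q := by
    rw [← hint]
    have h1 : (((e ^ 2 + q : ℤ)) : 𝓞 K) = (-(e : 𝓞 K) - δ) * (δ - (e : 𝓞 K)) := by
      push_cast
      linear_combination (1 : 𝓞 K) * h.sq
    rw [h1]
    exact P.mul_mem_left _ he1
  refine ⟨e, he1, ?_, hsq, hint⟩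
  intro hle
  have h1 : (l : ℤ) ∣ (q : ℤ) := by
    have h2 : (l : ℤ) ∣ e ^ 2 := Dvd.dvd.pow hle (by norm_num)
    exact (dvd_add_right h2).1 hsq
  have h3 : l ∣ q := by exact_mod_cast h1
  exact hlq ((Nat.prime_dvd_prime_iff_eq hl h.prime).1 h3)

theorem mem_LI_prime (h : Quad K q δ) {φ : 𝓞 K →+* ℂ} (hφ : φ δ = sq q) {l : ℕ} {P : Ideal (𝓞 K)} {e : ℤ}
    (he : δ - (e : 𝓞 K) ∈ P) (hlP : ∀ a : ℤ, (a : 𝓞 K) ∈ P ↔ (l : ℤ) ∣ a) {L : Submodule ℤ ℂ}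
    {z : ℂ} : z ∈ LI φ L P ↔ (l : ℂ) * z ∈ L ∧ (sq q - e) * z ∈ L := by
  rw [mem_LI]
  constructor
  · intro hz
    constructor
    · have h1 : ((l : ℤ) : 𝓞 K) ∈ P := (hlP l).2 (dvd_refl _)
      have h2 := hz _ h1
      rwa [map_intCast, Int.cast_natCast] at h2
    · have h2 := hz _ he
      rwa [map_sub, hφ, map_intCast] at h2
  · rintro ⟨h1, h2⟩ x hx
    obtain ⟨a, b, rfl⟩ := PrG.coords h x
    have h3 : ((a + b * e : ℤ) : 𝓞 K) ∈ P := by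
      have h4 : ((a + b * e : ℤ) : 𝓞 K) =
          ((a : 𝓞 K) + (b : 𝓞 K) * δ) - (b : 𝓞 K) * (δ - (e : 𝓞 K)) := by
        push_cast
        ring
      rw [h4]
      exact P.sub_mem hx (P.mul_mem_left _ he)
    obtain ⟨k, hk⟩ := (hlP _).1 h3
    have h5 : φ ((a : 𝓞 K) + (b : 𝓞 K) * δ) * z =
        b • ((sq q - e) * z) + k • ((l : ℂ) * z) := by
      rw [phi_od hφ, zsmul_eq_mul, zsmul_eq_mul]
      have h6 : (a : ℂ) + (b : ℂ) * (e : ℂ) = (l : ℂ) * (k : ℂ) := by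
        exact_mod_cast congrArg (fun t : ℤ => (t : ℂ)) hk
      linear_combination z * h6
    rw [h5]
    exact L.add_mem (L.smul_mem b h2) (L.smul_mem k h1)

end Pool.Agent.SS.K1B
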