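import Mathlib
import Pool.Agent.Work.MP_a5099b_nt.K1.PTwo

/-!
# Module K1/Cnt (size S-M): counting the stable superlattices of index `l` with a property of the invariant

By `stable_eq`, `LI_sup`, `LI_hasSq`, `PrG.absNorm_conj` the set is the set of those of the two different (`LI_ne`) lattices `LI L P`, `LI L P'` which satisfy `Q`. Four cases; `Set.ncard_pair`, `Set.ncard_singleton`, `Set.ncard_empty`.
-/

set_option autoImplicit false
set_option linter.unusedSectionVars false

namespace Pool.Agent.SS.K1B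

open NumberField
open Pool.Agent.Work.CM
open Pool.Agent.Work.MP_a5099b_nt
open Pool.Agent.Work.MP_a5099b_nt.PrF (Sm)
open Pool.Agent.Work.MP_a5099b_nt.PrG (Quad Rel Cls)
open Pool.Agent.SS.HB
open scoped Pointwise

open Classical in
private theorem ncard_two {α : Type*} {A B : α} (hAB : A ≠ B) (R : α → Prop) :
    {x | (x = A ∨ x = B) ∧ R x}.ncard = (if R A then 1 else 0) + (if R B then 1 else 0) := by
  by_cases hA : R A
  · by_cases hB : R B
    · have e : {x | (x = A ∨ x = B) ∧ R x} = {A, B} := by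
        ext x
        simp only [Set.mem_ofPred_eq, Set.mem_insert_iff, Set.mem_singleton_iff]
        constructor
        · rintro ⟨h, -⟩
          exact h
        · rintro (rfl | rfl)
          · exact ⟨Or.inl rfl, hA⟩
          · exact ⟨Or.inr rfl, hB⟩
      rw [e, Set.ncard_pair hAB, if_pos hA, if_pos hB]
    · have e : {x | (x = A ∨ x = B) ∧ R x} = {A} := by
        ext x
        simp only [Set.mem_ofPred_eq, Set.mem_singleton_iff]
        constructor
        · rintro ⟨h | h, h'⟩
          · exact h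
          · rw [h] at h'
            exact absurd h' hB
        · rintro rfl
          exact ⟨Or.inl rfl, hA⟩
      rw [e, Set.ncard_singleton, if_pos hA, if_neg hB]
  · by_cases hB : R B
    · have e : {x | (x = A ∨ x = B) ∧ R x} = {B} := by
        ext x
        simp only [Set.mem_ofPred_eq, Set.mem_singleton_iff]
        constructor
        · rintro ⟨h | h, h'⟩
          · rw [h] at h'
            exact absurd h' hA
          · exact h
        · rintro rfl
          exact ⟨Or.inr rfl, hB⟩
      rw [e, Set.ncard_singleton, if_neg hA, if_pos hB]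
    · have e : {x | (x = A ∨ x = B) ∧ R x} = ∅ := by
        ext x
        simp only [Set.mem_ofPred_eq, Set.mem_empty_iff_false, iff_false]
        rintro ⟨h | h, h'⟩
        · rw [h] at h'
          exact hA h'
        · rw [h] at h'
          exact hB h'
      rw [e, Set.ncard_empty, if_neg hA, if_neg hB]

open Classical in
theorem ncard_eq {K : Type} [Field K] [NumberField K] {q : ℕ} {δ : 𝓞 K} (h : Quad K q δ)
    {φ : 𝓞 K →+* ℂ} (hφ : φ δ = sq q) {L : Submodule ℤ ℂ}
    (hL : IsLat L) (hs : HasSq q L) {l : ℕ} (hl : l.Prime) (hl2 : l ≠ 2) (hlq : l ≠ q)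
    {P : Ideal (𝓞 K)} (hP : Ideal.absNorm P = l) (Q : ℂ → Prop) :
    {L' | Sup l L L' ∧ HasSq q L' ∧ Q (jL L')}.ncard =
      (if Q (jL (LI φ L P)) then 1 else 0) +
        (if Q (jL (LI φ L (P.map (PrG.conj h : 𝓞 K →+* 𝓞 K)))) then 1 else 0) := by
  have hP' : Ideal.absNorm (P.map (PrG.conj h : 𝓞 K →+* 𝓞 K)) = l := by
    rw [PrG.absNorm_conj, hP]
  have e : {L' | Sup l L L' ∧ HasSq q L' ∧ Q (jL L')} =
      {L' | (L' = LI φ L P ∨ L' = LI φ L (P.map (PrG.conj h : 𝓞 K →+* 𝓞 K))) ∧ Q (jL L')} := by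
    ext L'
    simp only [Set.mem_ofPred_eq]
    constructor
    · rintro ⟨h1, h2, h3⟩
      exact ⟨stable_eq h hφ hL hs hl hl2 hlq hP h1 h2, h3⟩
    · rintro ⟨h1 | h1, h3⟩
      · rw [h1] at h3 ⊢
        exact ⟨LI_sup h hφ hL hs hl hl2 hlq hP, LI_hasSq hφ L P, h3⟩
      · rw [h1] at h3 ⊢
        exact ⟨LI_sup h hφ hL hs hl hl2 hlq hP', LI_hasSq hφ L _, h3⟩
  rw [e]
  exact ncard_two (LI_ne h hφ hL hs hl hl2 hlq hP) (fun L' => Q (jL L'))

end Pool.Agent.SS.K1B
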