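import Mathlib

/-!
# Module K1/Grp (Mathlib only): the counting argument

`o i = s(h i, nu * (h i)⁻¹)`. `∑ c i` is the sum over the values of `o` of `∑ c i` over the fibre, and the sum over the
fibre of `o i₀` is `∑ i, c i * (X i g + X i (nu g⁻¹))` for `g = h i₀`.
-/

set_option autoImplicit false

namespace Pool.Agent.SS.K1B

open Classical in
theorem exists_odd {G U ι : Type} [CommGroup G] [CommGroup U] (nm : G →* U) (r : U)
    (nu : G) (S : Finset ι) (c : ι → ℕ) (hc : Odd (∑ i ∈ S, c i))
    (h : ι → G) (h1 : ∀ i ∈ S, nm (h i) = r) (h2 : ∀ i ∈ S, nu * (h i)⁻¹ ≠ h i) :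
    ∃ g, nm g = r ∧ Odd (∑ i ∈ S, c i * ((if g = h i then 1 else 0) +
      (if nu * g⁻¹ = h i then 1 else 0))) := by
  by_contra hcon
  push Not at hcon
  let o : ι → Sym2 G := fun i => s(h i, nu * (h i)⁻¹)
  have h3 : ∑ i ∈ S, c i = ∑ p ∈ S.image o, ∑ i ∈ S with o i = p, c i :=
    (Finset.sum_fiberwise_of_maps_to (fun i hi => Finset.mem_image_of_mem o hi) _).symm
  have h4 : Even (∑ i ∈ S, c i) := by
    rw [h3]
    refine Finset.even_sum _ fun p hp => ?_
    obtain ⟨j, hj, rfl⟩ := Finset.mem_image.1 hp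
    have h5 := Nat.not_odd_iff_even.1 (hcon (h j) (h1 j hj))
    have h6 : ∑ i ∈ S with o i = o j, c i = ∑ i ∈ S, c i * ((if h j = h i then 1 else 0) +
        (if nu * (h j)⁻¹ = h i then 1 else 0)) := by
      rw [Finset.sum_filter]
      refine Finset.sum_congr rfl fun i hi => ?_
      have h7 : o i = o j ↔ (h j = h i ∨ nu * (h j)⁻¹ = h i) := by
        show s(h i, nu * (h i)⁻¹) = s(h j, nu * (h j)⁻¹) ↔ _
        rw [Sym2.eq_iff]
        constructor
        · rintro (⟨a, -⟩ | ⟨a, -⟩)
          · exact Or.inl a.symm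
          · exact Or.inr a.symm
        · rintro (a | a)
          · left
            rw [a]
            exact ⟨rfl, rfl⟩
          · right
            refine ⟨a.symm, ?_⟩
            rw [← a, mul_inv, inv_inv, mul_inv_cancel_left]
      by_cases h8 : h j = h i
      · have h9 : ¬ (nu * (h j)⁻¹ = h i) := by
          rw [h8]
          exact h2 i hi
        rw [if_pos (h7.2 (Or.inl h8)), if_pos h8, if_neg h9, add_zero, mul_one]
      · by_cases h9 : nu * (h j)⁻¹ = h i
        · rw [if_pos (h7.2 (Or.inr h9)), if_neg h8, if_pos h9, zero_add, mul_one]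
        · rw [if_neg (fun h10 => (h7.1 h10).elim h8 h9), if_neg h8, if_neg h9, add_zero, mul_zero]
    rw [h6]
    exact h5
  exact (Nat.not_even_iff_odd.2 hc) h4

end Pool.Agent.SS.K1B
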