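import Mathlib
import Pool.Agent.Work.MP_a5099b_nt.K1.KDefs
import Pool.Agent.Work.MP_a5099b_nt.I1.CCls
import Pool.Agent.Work.MP_a5099b_nt.I1.CConj

/-!
# Module K1/PConj (size S-M): classes of conjugate ideals and of rational numbers

* `cl_conj`: `Sm N (I.map conj)`: norm `PrG.absNorm_conj`, `≠ ⊥` (norm not zero). `I * I.map conj = span {absNorm I}` (`PrG.map_conj_mul`), `hc.mul`.
* `sm_nat`: `absNorm (span {(l : 𝓞 K)}) = norm l = l ^ 2` (`PrG.norm_gen`, `PrG.norm_int h l 0` or `four_norm`), prime to `N`; `l ≠ 0` because `l` is prime to `N` and `2 ∣ N`.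
* `cl_nat`: `l, l'` are odd (`2 ∣ N`), so `U2` (`⟨k, _⟩`, `l = 1 + 2 k`); norms `l ^ 2 ≡ l' ^ 2 mod N`. `PrG.cls_span_eq`, `sm_nat`.
-/

set_option autoImplicit false
set_option linter.unusedSectionVars false

namespace Pool.Agent.SS.K1B

open NumberField
open Pool.Agent.Work.CM
open Pool.Agent.Work.MP_a5099b_nt
open Pool.Agent.Work.MP_a5099b_nt.PrF (Sm)
open Pool.Agent.Work.MP_a5099b_nt.PrG (Quad Rel Cls)
open Pool.Agent.SS.HB
open scoped Pointwise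

variable {K : Type} [Field K] [NumberField K] {q : ℕ} {δ : 𝓞 K}

variable {N : ℕ} {G : Type} [CommGroup G] {cl : Ideal (𝓞 K) → G}

theorem cl_conj (h : Quad K q δ) (hc : Cls N G cl) {I : Ideal (𝓞 K)} (hI : Sm N I) :
    Sm N (I.map (PrG.conj h : 𝓞 K →+* 𝓞 K)) ∧
      cl I * cl (I.map (PrG.conj h : 𝓞 K →+* 𝓞 K)) =
        cl (Ideal.span {((Ideal.absNorm I : ℕ) : 𝓞 K)}) := by
  have hs : Sm N (I.map (PrG.conj h : 𝓞 K →+* 𝓞 K)) := by
    rw [PrF.Sm_iff, PrG.absNorm_conj]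
    exact PrF.Sm_iff.1 hI
  refine ⟨hs, ?_⟩
  rw [← hc.mul _ _ hI hs, PrG.map_conj_mul h I hI.1]

theorem sm_nat (h : Quad K q δ) (hN : 2 ∣ N) {l : ℕ} (hl : l.Coprime N) :
    Sm N (Ideal.span {(l : 𝓞 K)}) ∧ Ideal.absNorm (Ideal.span {(l : 𝓞 K)}) = l ^ 2 := by
  have hodd : Odd l := Nat.coprime_two_right.1 (Nat.Coprime.coprime_dvd_right hN hl)
  have hn : Ideal.absNorm (Ideal.span {(l : 𝓞 K)}) = l ^ 2 := by
    have h1 := PrG.norm_gen h (l : 𝓞 K)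
    have h2 := PrG.norm_int h (l : ℤ) 0
    have h3 : (((l : ℤ) : 𝓞 K) + ((0 : ℤ) : 𝓞 K) * δ) = (l : 𝓞 K) := by
      push_cast
      ring
    rw [h3] at h2
    rw [h2] at h1
    have h4 : ((Ideal.absNorm (Ideal.span {(l : 𝓞 K)}) : ℕ) : ℤ) = ((l ^ 2 : ℕ) : ℤ) := by
      rw [h1]
      push_cast
      ring
    exact_mod_cast h4
  refine ⟨?_, hn⟩
  · rw [PrF.Sm_iff, hn]
    exact ⟨pow_pos hodd.pos 2, hl.pow_left 2⟩

theorem cl_nat (h : Quad K q δ) (hN : 2 ∣ N) (hc : Cls N G cl) {l l' : ℕ} (hl : l.Coprime N)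
    (hll : l ≡ l' [MOD N]) : cl (Ideal.span {(l : 𝓞 K)}) = cl (Ideal.span {(l' : 𝓞 K)}) := by
  have hl' : l'.Coprime N := by
    unfold Nat.Coprime at *
    rw [← hll.gcd_eq]
    exact hl
  obtain ⟨s1, n1⟩ := sm_nat h hN hl
  obtain ⟨s2, n2⟩ := sm_nat h hN hl'
  refine PrG.cls_span_eq h hc _ _ s1 s2 ?_
  rw [← PrG.norm_gen h, ← PrG.norm_gen h, n1, n2]
  exact Int.natCast_modEq_iff.2 (hll.pow 2)

end Pool.Agent.SS.K1B
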