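import Mathlib
import Pool.Agent.Work.MP_a5099b_nt.K1.KDefs
import Pool.Agent.Work.MP_a5099b_nt.K1.TFun
import Pool.Agent.Work.MP_a5099b_nt.K1.Cnt
import Pool.Agent.Work.MP_a5099b_nt.K1.PConj
import Pool.Agent.Work.MP_a5099b_nt.H.Pair

/-!
# Module K1/One: everything about one supersingular invariant `y`
-/

set_option autoImplicit false
set_option linter.unusedSectionVars false

namespace Pool.Agent.SS.K1B

open NumberField
open Pool.Agent.Work.CM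
open Pool.Agent.Work.MP_a5099b_nt
open Pool.Agent.Work.MP_a5099b_nt.PrF (Sm)
open Pool.Agent.Work.MP_a5099b_nt.PrG (Quad Rel Cls)
open Pool.Agent.SS.HB
open scoped Pointwise

open Classical in
/-- `y` has one class `g` with norm `r` such that the multiplicity of `y` for a prime ideal `Q` of norm class `r` is
congruent to `[cl Q = g] + [conj (cl Q) = g]`. -/
theorem one {K : Type} [Field K] [NumberField K] {q : ℕ} {δ : 𝓞 K} (h : Quad K q δ)
    [Fact q.Prime] {φ : 𝓞 K →+* ℂ} (hφ : φ δ = sq q) {k : Type} [Field k] [CharP k q]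
    {red : integralClosure ℤ ℂ →+* k} {y : ZMod q} {L M : Submodule ℤ ℂ} (P : PairAt q red y L M)
    {N : ℕ} (hN : 4 ∣ N) {r : ℕ} (hr : r.Coprime N) (hr4 : r % 4 = 3) {G : Type} [CommGroup G]
    {cl : Ideal (𝓞 K) → G} (hc : Cls N G cl)
    {Q₀ : Ideal (𝓞 K)} (hQ0 : (Ideal.absNorm Q₀).Prime) (hQ0q : Ideal.absNorm Q₀ ≠ q) (hS0 : Sm N Q₀)
    (hQ0r : Ideal.absNorm Q₀ ≡ r [MOD N])
    (hodd : Odd ((PhiAt (Ideal.absNorm Q₀) y).rootMultiplicity y)) :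
    ∃ I : Ideal (𝓞 K), Sm N I ∧ Ideal.absNorm I ≡ r [MOD N] ∧
      cl (Ideal.span {(r : 𝓞 K)}) * (cl I)⁻¹ ≠ cl I ∧
      ∀ Q : Ideal (𝓞 K), (Ideal.absNorm Q).Prime → Ideal.absNorm Q ≠ q → Sm N Q →
        Ideal.absNorm Q ≡ r [MOD N] →
        (PhiAt (Ideal.absNorm Q) y).rootMultiplicity y ≡
          (if cl Q = cl I then 1 else 0) +
            (if cl (Ideal.span {(r : 𝓞 K)}) * (cl Q)⁻¹ = cl I then 1 else 0) [MOD 2] := by
  have hN2 : 2 ∣ N := (by norm_num : 2 ∣ 4).trans hN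
  obtain ⟨T, hT1, hT2, hT3⟩ := exists_T h hN hc hφ P.latL P.sqL
  -- the conjugate of `Q`
  have hconj : ∀ Q : Ideal (𝓞 K), Sm N Q → Ideal.absNorm Q ≡ r [MOD N] →
      Sm N (Q.map (PrG.conj h : 𝓞 K →+* 𝓞 K)) ∧
      Ideal.absNorm (Q.map (PrG.conj h : 𝓞 K →+* 𝓞 K)) ≡ r [MOD N] ∧
      cl (Q.map (PrG.conj h : 𝓞 K →+* 𝓞 K)) = cl (Ideal.span {(r : 𝓞 K)}) * (cl Q)⁻¹ := by
    intro Q hS hQr
    obtain ⟨h3, h4⟩ := cl_conj h hc hS
    rw [cl_nat h hN2 hc hS.2 hQr] at h4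
    refine ⟨h3, ?_, ?_⟩
    · rw [PrG.absNorm_conj]
      exact hQr
    · rw [← h4, mul_comm (cl Q), mul_inv_cancel_right]
  -- the value `j(L)` does not occur
  have hno : ∀ Q : Ideal (𝓞 K), Sm N Q → Ideal.absNorm Q ≡ r [MOD N] → T (cl Q) ≠ jL L := by
    intro Q hS hQr he
    have h1 := hT3 Q hS he
    have h2 : r ≡ 1 [MOD 4] := (hQr.symm.of_dvd hN).trans h1
    have h3 : r % 4 = 1 % 4 := h2
    omega
  -- the parity
  have hpar : ∀ Q : Ideal (𝓞 K), (Ideal.absNorm Q).Prime → Ideal.absNorm Q ≠ q → Sm N Q →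
        Ideal.absNorm Q ≡ r [MOD N] →
        (PhiAt (Ideal.absNorm Q) y).rootMultiplicity y ≡
          (if T (cl Q) = jL M then 1 else 0) +
            (if T (cl (Ideal.span {(r : 𝓞 K)}) * (cl Q)⁻¹) = jL M then 1 else 0) [MOD 2] := by
    intro Q hQ hlq hS hQr
    have hl2 : Ideal.absNorm Q ≠ 2 := by
      intro h2
      have h3 := hS.2
      rw [h2] at h3
      exact (Nat.Prime.coprime_iff_not_dvd Nat.prime_two).1 h3 hN2
    have h1 := P.par hQ hlq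
    have h2 := ncard_eq h hφ P.latL P.sqL hQ hl2 hlq rfl (fun z => z = jL L ∨ z = jL M)
    obtain ⟨h3, h3', h5⟩ := hconj Q hS hQr
    have h6 := hno Q hS hQr
    have h7 := hno _ h3 h3'
    rw [← hT1 Q hS, ← hT1 _ h3] at h2
    simp only [h6, h7, false_or] at h2
    rw [h5] at h2
    rw [h2] at h1
    exact h1
  -- the class
  have hex : ∃ I : Ideal (𝓞 K), Sm N I ∧ Ideal.absNorm I ≡ r [MOD N] ∧ T (cl I) = jL M ∧
      T (cl (Ideal.span {(r : 𝓞 K)}) * (cl I)⁻¹) ≠ jL M := by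
    have h1 := hpar Q₀ hQ0 hQ0q hS0 hQ0r
    obtain ⟨h3, h4, h5⟩ := hconj Q₀ hS0 hQ0r
    have h6 : Odd ((if T (cl Q₀) = jL M then 1 else 0) +
        (if T (cl (Ideal.span {(r : 𝓞 K)}) * (cl Q₀)⁻¹) = jL M then 1 else 0)) := by
      rw [Nat.odd_iff] at hodd ⊢
      rw [← h1]
      exact hodd
    by_cases h7 : T (cl Q₀) = jL M
    · refine ⟨Q₀, hS0, hQ0r, h7, fun h8 => ?_⟩
      rw [if_pos h7, if_pos h8] at h6
      exact absurd h6 (by decide)
    · by_cases h8 : T (cl (Ideal.span {(r : 𝓞 K)}) * (cl Q₀)⁻¹) = jL M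
      · refine ⟨_, h3, h4, by rw [h5]; exact h8, ?_⟩
        have h9 : cl (Ideal.span {(r : 𝓞 K)}) * (cl (Q₀.map (PrG.conj h : 𝓞 K →+* 𝓞 K)))⁻¹ =
            cl Q₀ := by
          rw [h5, mul_inv, inv_inv, mul_inv_cancel_left]
        rw [h9]
        exact h7
      · rw [if_neg h7, if_neg h8] at h6
        exact absurd h6 (by decide)
  obtain ⟨I, hI, hIr, hI1, hI2⟩ := hex
  refine ⟨I, hI, hIr, fun h1 => hI2 (by rw [h1]; exact hI1), ?_⟩
  intro Q hQ hlq hS hQr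
  have h1 := hpar Q hQ hlq hS hQr
  obtain ⟨h3, h4, h5⟩ := hconj Q hS hQr
  have e1 : T (cl Q) = jL M ↔ cl Q = cl I := by
    constructor
    · intro h6
      exact hT2 Q I hS hI (hQr.trans hIr.symm) (by rw [h6, hI1])
    · intro h6
      rw [h6, hI1]
  have e2 : T (cl (Ideal.span {(r : 𝓞 K)}) * (cl Q)⁻¹) = jL M ↔
      cl (Ideal.span {(r : 𝓞 K)}) * (cl Q)⁻¹ = cl I := by
    rw [← h5]
    constructor
    · intro h6
      exact hT2 _ I h3 hI (h4.trans hIr.symm) (by rw [h6, hI1])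
    · intro h6
      rw [h6, hI1]
  simp only [e1, e2] at h1
  exact h1

end Pool.Agent.SS.K1B
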