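import Mathlib
import Pool.Agent.Work.MP_a5099b_nt.K1.KDefs
import Pool.Agent.Work.MP_a5099b_nt.K1.Grp
import Pool.Agent.Work.MP_a5099b_nt.K1.One
import Pool.Agent.Work.MP_a5099b_nt.H.Place
import Pool.Agent.Work.MP_a5099b_nt.I1.CNm
import Pool.Agent.Work.MP_a5099b_nt.I1.CRel
import Pool.Agent.Work.MP_a5099b_nt.I1.DPr
import Pool.Agent.Work.MP_a5099b_nt.I1.ECls
import Pool.Agent.Work.MP_a5099b_nt.I1.EInst

/-!
# Module K1/Main: assembly of block K1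

The statement for sets of supersingular invariants follows from the statement for one invariant (`hone`).
-/

set_option autoImplicit false
set_option linter.unusedSectionVars false

namespace Pool.Agent.SS.K1B

open NumberField
open Pool.Agent.Work.CM
open Pool.Agent.Work.MP_a5099b_nt
open Pool.Agent.Work.MP_a5099b_nt.PrF (Sm)
open Pool.Agent.Work.MP_a5099b_nt.PrG (Quad Rel Cls)
open Pool.Agent.SS.HB
open scoped Pointwise

private theorem jac_eq {q l : ℕ} [Fact q.Prime] (hq4 : q % 4 = 1) (hl : l.Prime) (hl2 : l ≠ 2) :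
    jacobiSym (-q) l = ZMod.χ₄ (l : ZMod 4) * legendreSym q l := by
  have hodd : Odd l := hl.odd_of_ne_two hl2
  have e : (-(q : ℤ)) = -1 * q := by ring
  rw [e, jacobiSym.mul_left, jacobiSym.at_neg_one hodd, jacobiSym.legendreSym.to_jacobiSym,
    jacobiSym.quadratic_reciprocity_one_mod_four hq4 hodd]

theorem exists_prime_avg_main1 {q : ℕ} [Fact q.Prime] (h5 : 5 ≤ q) (hq4 : q % 4 = 1)
    (S : Finset (ZMod q)) (hS : ∀ y ∈ S, SSj q y ∧ y ≠ 0 ∧ y ≠ 1728) (c : ZMod q → ℕ)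
    (hc : Odd (∑ y ∈ S, c y)) {m : ℕ} (hm : Odd m) (hm2 : Squarefree m)
    (hqm : ¬ q ∣ m) {r : ℕ} (hr : Nat.Coprime r (8 * m)) (hr4 : r % 4 = 3)
    (hone : ∀ y ∈ S, ∃ l : ℕ, l.Prime ∧ q < l ∧ l ≡ r [MOD 8 * m] ∧ jacobiSym (-q) l = 1 ∧
      Odd ((PhiAt l y).rootMultiplicity y)) (B : ℕ) :
    ∃ l : ℕ, l.Prime ∧ B < l ∧ l ≡ r [MOD 8 * m] ∧ jacobiSym (-q) l = 1 ∧
      Odd (∑ y ∈ S, c y * (PhiAt l y).rootMultiplicity y) := by
  classical
  have hq : q.Prime := Fact.out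
  have hm0 : 0 < m := hm.pos
  have hN0 : 8 * m ≠ 0 := by omega
  have hN4 : 4 ∣ 8 * m := ⟨2 * m, by ring⟩
  have hN2 : 2 ∣ 8 * m := ⟨4 * m, by ring⟩
  -- the field and the classes
  obtain ⟨K, _, _, δ, h⟩ := PrG.exists_quad q hq hq4
  obtain ⟨G, _, _, cl, hcl⟩ := PrG.exists_cls h (8 * m) hN4 hN0
  obtain ⟨φ, hφ⟩ := exists_emb h
  obtain ⟨nm, hnm⟩ := PrG.exists_nm h hN0 hcl
  obtain ⟨k, _, _, ⟨red⟩⟩ := exists_place hq
  set rU : (ZMod (8 * m))ˣ := ZMod.unitOfCoprime r hr with hrU'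
  have hrU : (rU : ZMod (8 * m)) = (r : ZMod (8 * m)) := ZMod.coe_unitOfCoprime r hr
  set nu : G := cl (Ideal.span {(r : 𝓞 K)}) with hnu'
  have hnr : ∀ I : Ideal (𝓞 K), Sm (8 * m) I →
      (nm (cl I) = rU ↔ Ideal.absNorm I ≡ r [MOD 8 * m]) := by
    intro I hI
    rw [← Units.val_inj, hnm I hI, hrU, ZMod.natCast_eq_natCast_iff]
  have key : ∀ y : ZMod q, ∃ g : G, y ∈ S → (nm g = rU ∧ nu * g⁻¹ ≠ g ∧
      ∀ Q : Ideal (𝓞 K), (Ideal.absNorm Q).Prime → Ideal.absNorm Q ≠ q → Sm (8 * m) Q →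
        nm (cl Q) = rU →
        (PhiAt (Ideal.absNorm Q) y).rootMultiplicity y ≡
          (if cl Q = g then 1 else 0) + (if nu * (cl Q)⁻¹ = g then 1 else 0) [MOD 2]) := by
    intro y
    by_cases hy : y ∈ S
    · obtain ⟨hy1, hy2, hy3⟩ := hS y hy
      obtain ⟨L, M, P⟩ := exists_pairAt h5 red y hy1 hy2 hy3
      obtain ⟨l, hl, hql, hlr, hj, hodd⟩ := hone y hy
      have hl2 : l ≠ 2 := by omega
      have hlq : l ≠ q := hql.ne'
      rw [jac_eq hq4 hl hl2] at hj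
      obtain ⟨Q₀, -, -, hQp, -, hQ0, -⟩ := PrG.split h l hl hl2 hlq hj
      have hS0 : Sm (8 * m) Q₀ := by
        rw [PrF.Sm_iff, hQ0]
        refine ⟨hl.pos, ?_⟩
        unfold Nat.Coprime at *
        rw [hlr.gcd_eq]
        exact hr
      subst hQ0
      obtain ⟨I, h1, h2, h3, h4⟩ := one h hφ P hN4 hr hr4 hcl hl hlq hS0 hlr hodd
      refine ⟨cl I, fun _ => ⟨(hnr I h1).2 h2, h3, ?_⟩⟩
      intro Q hQ hQq hQS hQr
      exact h4 Q hQ hQq hQS ((hnr Q hQS).1 hQr)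
    · exact ⟨1, fun h => absurd h hy⟩
  choose hh hT using key
  obtain ⟨g, hgr, hgodd⟩ := exists_odd nm rU nu S c hc hh (fun y hy => (hT y hy).1)
    (fun y hy => (hT y hy).2.1)
  -- the prime
  have hinf := PrG.primes_in_class h hm hm2 hqm hcl g
  have hfin : {P : Ideal (𝓞 K) | Ideal.absNorm P ≤ B + q + 2}.Finite :=
    Ideal.finite_setOfPred_absNorm_le (B + q + 2)
  obtain ⟨Q, ⟨hQp, hQl, hQs, hQg⟩, hQB⟩ := (hinf.sdiff hfin).nonempty
  have hQB' : B + q + 2 < Ideal.absNorm Q := not_le.1 hQB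
  have hQr : nm (cl Q) = rU := by rw [hQg, hgr]
  have hl2 : Ideal.absNorm Q ≠ 2 := by omega
  have hlq : Ideal.absNorm Q ≠ q := by omega
  refine ⟨Ideal.absNorm Q, hQl, by omega, (hnr Q hQs).1 hQr, ?_, ?_⟩
  · obtain ⟨e, -, hne, hdiv, -⟩ := exists_e h hQl hlq (P := Q) rfl
    have h1 : (-(q : ℤ)) % (Ideal.absNorm Q : ℕ) = (e ^ 2) % (Ideal.absNorm Q : ℕ) := by
      rw [Int.emod_eq_emod_iff_emod_sub_eq_zero]
      exact Int.emod_eq_zero_of_dvd (by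
        have e1 : -(q : ℤ) - e ^ 2 = -(e ^ 2 + q) := by ring
        rw [e1]
        exact (dvd_neg).2 hdiv)
    rw [jacobiSym.mod_left' h1]
    apply jacobiSym.sq_one'
    rw [← Int.isCoprime_iff_gcd_eq_one]
    exact ((Nat.prime_iff_prime_int.1 hQl).coprime_iff_not_dvd.2 hne).symm
  · have hsum : ∑ y ∈ S, c y * (PhiAt (Ideal.absNorm Q) y).rootMultiplicity y ≡
        ∑ y ∈ S, c y * ((if g = hh y then 1 else 0) + (if nu * g⁻¹ = hh y then 1 else 0))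
          [MOD 2] := by
      rw [← ZMod.natCast_eq_natCast_iff, Nat.cast_sum, Nat.cast_sum]
      refine Finset.sum_congr rfl fun y hy => ?_
      have h1 := (hT y hy).2.2 Q hQl hlq hQs hQr
      rw [hQg] at h1
      rw [← ZMod.natCast_eq_natCast_iff] at h1
      rw [Nat.cast_mul, Nat.cast_mul, h1]
    rw [Nat.odd_iff] at hgodd ⊢
    rw [hsum]
    exact hgodd

end Pool.Agent.SS.K1B
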